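import Pool.Agent.H91.CF.TA

/-!
# Fundamental discriminants in terms of the local conditions (MP_347b49_nt, row AFSQ)
-/

set_option autoImplicit false

open MeasureTheory Set Filter
open Pool.Agent.H31.CN Pool.Agent.H91.CF
open Pool.Agent.H96.CN (Av Per2)
open scoped Real

namespace Pool.Agent.H72.CF

theorem gdp_two (D : ℕ) : gdp 2 (D : ℤ) ↔ (D % 4 = 3 ∨ D % 16 = 4 ∨ D % 16 = 8) := by
  unfold gdp
  rw [if_pos rfl]
  omega

theorem gdp_odd {p : ℕ} (h2 : p ≠ 2) (D : ℕ) : gdp p (D : ℤ) ↔ ¬ p ^ 2 ∣ D := by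
  unfold gdp
  rw [if_neg h2]
  have h : (((p ^ 2 : ℕ) : ℤ) ∣ (D : ℤ)) ↔ p ^ 2 ∣ D := Int.natCast_dvd_natCast
  push_cast at h
  rw [h]

theorem Fu_odd {D p : ℕ} (h : Fu D) (hp : p.Prime) (h2 : p ≠ 2) : ¬ p ^ 2 ∣ D := by
  intro h3
  rcases h with ⟨-, h4⟩ | ⟨h5, h4, -⟩
  · rw [pow_two] at h3
    exact hp.one_lt.ne' (Nat.isUnit_iff.1 (h4 p h3))
  · obtain ⟨m, rfl⟩ := h5
    rw [Nat.mul_div_cancel_left m (by norm_num)] at h4
    have h6 : Nat.Coprime (p ^ 2) 4 := by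
      have h7 : Nat.Coprime p 2 := (Nat.coprime_primes hp Nat.prime_two).2 h2
      exact Nat.Coprime.pow 2 2 h7
    have h7 : p ^ 2 ∣ m := h6.dvd_of_dvd_mul_left h3
    rw [pow_two] at h7
    exact hp.one_lt.ne' (Nat.isUnit_iff.1 (h4 p h7))

theorem pf_FSQ : T_FSQ := by
  intro N D hN h2N hD
  have h2m : 2 ∈ N.primeFactors := Nat.mem_primeFactors.2 ⟨Nat.prime_two, h2N, by omega⟩
  constructor
  · intro hF
    refine ⟨fun p hp => ?_, fun p hp hpN => ?_⟩
    · by_cases h2 : p = 2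
      · rw [h2, gdp_two]
        rcases hF with ⟨h4, -⟩ | ⟨h5, -, h6⟩
        · exact Or.inl h4
        · omega
      · rw [gdp_odd h2]
        exact Fu_odd hF (Nat.prime_of_mem_primeFactors hp) h2
    · exact Fu_odd hF hp (fun h => hpN (by rw [h]; exact h2N))
  · rintro ⟨h1, h3⟩
    have hodd : ∀ p : ℕ, p.Prime → p ≠ 2 → ¬ p ^ 2 ∣ D := by
      intro p hp hp2
      by_cases hpN : p ∣ N
      · exact (gdp_odd hp2 D).1 (h1 p (Nat.mem_primeFactors.2 ⟨hp, hpN, by omega⟩))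
      · exact h3 p hp hpN
    have h4 := (gdp_two D).1 (h1 2 h2m)
    rcases h4 with h4 | h4
    · left
      refine ⟨h4, Nat.squarefree_iff_prime_squarefree.2 fun p hp h5 => ?_⟩
      by_cases h6 : p = 2
      · rw [h6] at h5
        omega
      · rw [← pow_two] at h5
        exact hodd p hp h6 h5
    · right
      refine ⟨by omega, Nat.squarefree_iff_prime_squarefree.2 fun p hp h5 => ?_, by omega⟩
      by_cases h6 : p = 2
      · rw [h6] at h5
        omega
      · rw [← pow_two] at h5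
        exact hodd p hp h6 (h5.trans (Nat.div_dvd_of_dvd (by omega)))

end Pool.Agent.H72.CF
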