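import Pool.Agent.H91.CF.TA
import Pool.Agent.H51.CN.PZ2

/-!
# The type of a prime (MP_347b49_nt, row ATYP)
-/

set_option autoImplicit false

open MeasureTheory Set Filter
open Pool.Agent.H31.CN Pool.Agent.H91.CF
open Pool.Agent.H96.CN (Av Per2)
open scoped Real

namespace Pool.Agent.H72.CF

theorem nrt_sq {p : ℕ} (hp : p.Prime) (u Δ : ℤ) (hu : ¬ (p : ℤ) ∣ u) :
    nrt p 1 0 (u ^ 2 * Δ) = nrt p 1 0 Δ := by
  haveI : Fact p.Prime := ⟨hp⟩
  have hu' : (u : ZMod p) ≠ 0 := by
    rwa [Ne, ZMod.intCast_zmod_eq_zero_iff_dvd]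
  rw [Pool.Agent.H51.CN.nrt_eq p hp.ne_zero, Pool.Agent.H51.CN.nrt_eq p hp.ne_zero]
  refine Nat.card_congr
    { toFun := fun x => ⟨x.1 / (u : ZMod p), ?_⟩
      invFun := fun y => ⟨y.1 * (u : ZMod p), ?_⟩
      left_inv := fun x => ?_
      right_inv := fun y => ?_ }
  · have h := x.2
    push_cast at h ⊢
    field_simp
    linear_combination h
  · have h := y.2
    push_cast at h ⊢
    linear_combination (u : ZMod p) ^ 2 * h
  · refine Subtype.ext ?_
    simp only
    field_simp
  · refine Subtype.ext ?_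
    simp only
    field_simp

theorem pf_TYP : T_TYP := by
  intro p u Δ hp hu
  by_cases h2 : p = 2
  · subst h2
    have hodd : u % 2 = 1 := by
      push_cast at hu
      omega
    obtain ⟨k, hk⟩ : ∃ k, u = 2 * k + 1 := ⟨u / 2, by omega⟩
    obtain ⟨m, hm⟩ : ∃ m, k * (k + 1) = 2 * m := by
      have h3 := Int.even_mul_succ_self k
      obtain ⟨r, hr⟩ := h3
      exact ⟨r, by linarith⟩
    have hX : u ^ 2 * Δ = Δ + 8 * (m * Δ) := by
      rw [hk]
      linear_combination 4 * Δ * hm
    rw [hX]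
    refine ⟨?_, ?_⟩
    · unfold ch
      rw [if_pos rfl, if_pos rfl, Int.add_mul_emod_self_left]
    · unfold gdp
      rw [if_pos rfl, if_pos rfl]
      rcases Int.even_or_odd Δ with h4 | h4
      · obtain ⟨r, hr⟩ := h4
        have h5 : Δ + 8 * (m * Δ) = Δ + 16 * (m * r) := by
          linear_combination 8 * m * hr
        rw [h5]
        omega
      · obtain ⟨r, hr⟩ := h4
        generalize m * Δ = w
        omega
  · refine ⟨?_, ?_⟩
    · unfold ch
      rw [if_neg h2, if_neg h2, nrt_sq hp u Δ hu]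
    · unfold gdp
      rw [if_neg h2, if_neg h2, not_iff_not]
      constructor
      · intro h3
        have h4 : IsCoprime ((p : ℤ) ^ 2) (u ^ 2) :=
          IsCoprime.pow ((Nat.prime_iff_prime_int.1 hp).coprime_iff_not_dvd.2 hu)
        exact h4.dvd_of_dvd_mul_left h3
      · intro h3
        exact Dvd.dvd.mul_left h3 _

end Pool.Agent.H72.CF
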